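import Pool.Agent.H124R2.Vis.Exit
import Pool.Agent.H247R2.Warren

/-!
# The number of visibility graphs is at most `2 (16 n³ + 1) ^ (2 n)`
-/

namespace Pool.Agent.R922.Vis

open Set Vis124 MvPolynomial

variable {n : ℕ}

/-- the coordinates of the vertices, as one real vector -/
def enc (v : Fin n → ℝ × ℝ) : Fin n × Bool → ℝ := fun p => if p.2 then (v p.1).1 else (v p.1).2

/-- orientation of three vertices, as a polynomial -/
noncomputable def pOri (a b c : Fin n) : MvPolynomial (Fin n × Bool) ℝ :=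
  (X (b, true) - X (a, true)) * (X (c, false) - X (a, false)) -
    (X (b, false) - X (a, false)) * (X (c, true) - X (a, true))

/-- scalar product, as a polynomial -/
noncomputable def pDot (a b c : Fin n) : MvPolynomial (Fin n × Bool) ℝ :=
  (X (b, true) - X (a, true)) * (X (c, true) - X (a, true)) +
    (X (b, false) - X (a, false)) * (X (c, false) - X (a, false))

/-- the polynomials whose signs determine the visibility graph -/
noncomputable def fam (p : (Fin n × Fin n × Fin n) × Bool) : MvPolynomial (Fin n × Bool) ℝ :=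
  if p.2 then pOri p.1.1 p.1.2.1 p.1.2.2 else pDot p.1.1 p.1.2.1 p.1.2.2

lemma eval_pOri (v : Fin n → ℝ × ℝ) (a b c : Fin n) :
    eval (enc v) (pOri a b c) = ori (v a) (v b) (v c) := by
  simp [pOri, enc, ori, cr]

lemma eval_pDot (v : Fin n → ℝ × ℝ) (a b c : Fin n) :
    eval (enc v) (pDot a b c) = dotp (v a) (v b) (v c) := by
  simp [pDot, enc, dotp]

lemma deg_sub (p q : Fin n × Bool) :
    (X p - X q : MvPolynomial (Fin n × Bool) ℝ).totalDegree ≤ 1 := by
  refine (totalDegree_sub _ _).trans ?_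
  simp [totalDegree_X]

lemma deg_fam (p : (Fin n × Fin n × Fin n) × Bool) : (fam p).totalDegree ≤ 2 := by
  unfold fam
  have hm : ∀ p q r s : Fin n × Bool,
      ((X p - X q) * (X r - X s) : MvPolynomial (Fin n × Bool) ℝ).totalDegree ≤ 2 := by
    intro p q r s
    refine (totalDegree_mul _ _).trans ?_
    have h1 := deg_sub p q
    have h2 := deg_sub r s
    omega
  split_ifs
  · unfold pOri
    exact (totalDegree_sub _ _).trans (max_le (hm _ _ _ _) (hm _ _ _ _))
  · unfold pDot
    exact (totalDegree_add _ _).trans (max_le (hm _ _ _ _) (hm _ _ _ _))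

/-- the sign vector of a polygon -/
noncomputable def sv (v : Fin n → ℝ × ℝ) (p : (Fin n × Fin n × Fin n) × Bool) : SignType :=
  SignType.sign (eval (enc v) (fam p))

lemma sign_pos_iff {x y σ : ℝ} (h : SignType.sign x = SignType.sign y) :
    (0 < σ * x ↔ 0 < σ * y) := by
  rw [← sign_eq_one_iff, ← sign_eq_one_iff, sign_mul, sign_mul, h]

lemma sign_neg_iff {x y σ : ℝ} (h : SignType.sign x = SignType.sign y) :
    (σ * x < 0 ↔ σ * y < 0) := by
  rw [← sign_eq_neg_one_iff, ← sign_eq_neg_one_iff, sign_mul, sign_mul, h]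

lemma sign_le_iff {x y σ : ℝ} (h : SignType.sign x = SignType.sign y) :
    (σ * x ≤ 0 ↔ σ * y ≤ 0) := by
  rw [← not_lt, ← not_lt, sign_pos_iff h]

lemma sign_zero_iff {x y : ℝ} (h : SignType.sign x = SignType.sign y) : (x = 0 ↔ y = 0) := by
  constructor
  · intro hx
    rw [← sign_eq_zero_iff, ← h, sign_eq_zero_iff]
    exact hx
  · intro hy
    rw [← sign_eq_zero_iff, h, sign_eq_zero_iff]
    exact hy

lemma sign_mul_iff {x y x' y' : ℝ} (h : SignType.sign x = SignType.sign y)
    (h' : SignType.sign x' = SignType.sign y') : (x * x' < 0 ↔ y * y' < 0) := by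
  rw [← sign_eq_neg_one_iff, ← sign_eq_neg_one_iff, sign_mul, sign_mul, h, h']

section
variable {v v' : Fin n → ℝ × ℝ} (hs : sv v = sv v')
include hs

lemma ori_sign (a b c : Fin n) :
    SignType.sign (ori (v a) (v b) (v c)) = SignType.sign (ori (v' a) (v' b) (v' c)) := by
  have := congrFun hs ((a, b, c), true)
  unfold sv fam at this
  simp only [if_true] at this
  rwa [eval_pOri, eval_pOri] at this

lemma dot_sign (a b c : Fin n) :
    SignType.sign (dotp (v a) (v b) (v c)) = SignType.sign (dotp (v' a) (v' b) (v' c)) := by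
  have := congrFun hs ((a, b, c), false)
  unfold sv fam at this
  simp only [Bool.false_eq_true, if_false] at this
  rwa [eval_pDot, eval_pDot] at this

lemma vexit_iff (σ : ℝ) (i j k : Fin n) : VExit σ v i j k ↔ VExit σ v' i j k := by
  have e : ∀ u : Fin n → ℝ × ℝ, VExit σ u i j k ↔ (k ≠ j ∧ ori (u i) (u j) (u k) = 0 ∧
      1 * dotp (u k) (u i) (u j) ≤ 0 ∧
      ((0 < (-σ) * ori (u k) (u (sc k)) (u (pd k)) ∧ 0 < (-σ) * ori (u k) (u (sc k)) (u j) ∧
        0 < (-σ) * ori (u k) (u j) (u (pd k))) ∨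
       ((-σ) * ori (u k) (u (sc k)) (u (pd k)) ≤ 0 ∧ (0 < (-σ) * ori (u k) (u (sc k)) (u j) ∨
        0 < (-σ) * ori (u k) (u j) (u (pd k)))))) := by
    intro u
    rw [one_mul]
    exact Iff.rfl
  rw [e v, e v', sign_zero_iff (ori_sign hs i j k), sign_le_iff (dot_sign hs k i j),
    sign_pos_iff (ori_sign hs k (sc k) (pd k)), sign_pos_iff (ori_sign hs k (sc k) j),
    sign_pos_iff (ori_sign hs k j (pd k)), sign_le_iff (ori_sign hs k (sc k) (pd k))]

lemma eexit_iff (σ : ℝ) (i j l : Fin n) : EExit σ v i j l ↔ EExit σ v' i j l := by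
  unfold EExit
  rw [sign_pos_iff (ori_sign hs l (sc l) i), sign_neg_iff (ori_sign hs l (sc l) j),
    sign_mul_iff (ori_sign hs i j l) (ori_sign hs i j (sc l))]

end

/-- the labelled visibility graphs -/
def visGraphs (n : ℕ) : Set (SimpleGraph (Fin n)) :=
  {Γ | ∃ (v : Fin n → ℝ × ℝ) (P : Set (ℝ × ℝ)), IsSimplePolygon v P ∧ Γ = visGraph v P}

/-- a code of a labelled visibility graph -/
def IsCode (Γ : SimpleGraph (Fin n)) (c : Bool × ((Fin n × Fin n × Fin n) × Bool → SignType)) :
    Prop :=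
  ∃ v : Fin n → ℝ × ℝ, sv v = c.2 ∧ ∀ i j, Γ.Adj i j ↔ i ≠ j ∧
    ¬ ((∃ k, VExit (if c.1 then 1 else -1) v i j k) ∨
      ∃ l, EExit (if c.1 then 1 else -1) v i j l)

lemma exists_code {Γ : SimpleGraph (Fin n)} (h : Γ ∈ visGraphs n) : ∃ c, IsCode Γ c := by
  obtain ⟨v, P, hP, rfl⟩ := h
  obtain ⟨σ, hσ, hint, hext⟩ := oriented hP
  have key : ∀ i j, (visGraph v P).Adj i j ↔ i ≠ j ∧
      ¬ ((∃ k, VExit σ v i j k) ∨ ∃ l, EExit σ v i j l) := by
    intro i j
    constructor
    · rintro ⟨h1, h2⟩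
      exact ⟨h1, fun h3 => not_visible_of_exit hP hσ hext h1 h3 h2⟩
    · rintro ⟨h1, h2⟩
      refine ⟨h1, ?_⟩
      by_contra h3
      exact h2 (exit_of_not_visible hP hσ hint hext h1 h3)
  rcases hσ with rfl | rfl
  · exact ⟨(true, sv v), v, rfl, by simpa using key⟩
  · exact ⟨(false, sv v), v, rfl, by simpa using key⟩

lemma code_inj {Γ Δ : SimpleGraph (Fin n)}
    {c : Bool × ((Fin n × Fin n × Fin n) × Bool → SignType)} (h1 : IsCode Γ c)
    (h2 : IsCode Δ c) : Γ = Δ := by
  obtain ⟨v, hv, h3⟩ := h1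
  obtain ⟨v', hv', h4⟩ := h2
  have hs : sv v = sv v' := hv.trans hv'.symm
  ext i j
  rw [h3, h4]
  have e1 : ∀ k, VExit (if c.1 then 1 else -1) v i j k ↔ VExit (if c.1 then 1 else -1) v' i j k :=
    fun k => vexit_iff hs _ i j k
  have e2 : ∀ k, EExit (if c.1 then 1 else -1) v i j k ↔ EExit (if c.1 then 1 else -1) v' i j k :=
    fun k => eexit_iff hs _ i j k
  simp only [e1, e2]

theorem ncard_visGraphs_le (n : ℕ) : (visGraphs n).ncard ≤ 2 * (16 * n ^ 3 + 1) ^ (2 * n) := by
  classical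
  let S : Finset ((Fin n × Fin n × Fin n) × Bool → SignType) :=
    Finset.univ.filter fun s => ∃ x : Fin n × Bool → ℝ, ∀ j,
      SignType.sign (eval x (fam j)) = s j
  have hS := Pool.Agent.H247R2.Warren.sign_count (ι := Fin n × Bool)
    (J := (Fin n × Fin n × Fin n) × Bool) fam 2 deg_fam S (by
      intro s hs
      exact (Finset.mem_filter.mp hs).2)
  have hcard : Fintype.card ((Fin n × Fin n × Fin n) × Bool) = 2 * n ^ 3 := by
    simp only [Fintype.card_prod, Fintype.card_fin, Fintype.card_bool]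
    ring
  have hcard' : Fintype.card (Fin n × Bool) = 2 * n := by
    simp only [Fintype.card_prod, Fintype.card_fin, Fintype.card_bool]
    ring
  rw [hcard, hcard'] at hS
  have e : 4 * (2 * n ^ 3 * 2) + 1 = 16 * n ^ 3 + 1 := by ring
  rw [e] at hS
  have hch : ∀ Γ : SimpleGraph (Fin n), ∃ c, Γ ∈ visGraphs n → IsCode Γ c := by
    intro Γ
    by_cases h : Γ ∈ visGraphs n
    · obtain ⟨c, hc⟩ := exists_code h
      exact ⟨c, fun _ => hc⟩
    · exact ⟨(true, fun _ => 0), fun h' => absurd h' h⟩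
  choose code hcode using hch
  have h1 : (visGraphs n).ncard ≤ ((Finset.univ : Finset Bool) ×ˢ S : Finset _).card := by
    rw [← ncard_coe_finset]
    apply ncard_le_ncard_of_injOn code
    · intro Γ hΓ
      obtain ⟨v, hv, -⟩ := hcode Γ hΓ
      rw [Finset.coe_product]
      refine ⟨Finset.mem_coe.mpr (Finset.mem_univ _), Finset.mem_coe.mpr ?_⟩
      rw [Finset.mem_filter]
      refine ⟨Finset.mem_univ _, enc v, fun j => ?_⟩
      rw [← hv]
      rfl
    · intro Γ hΓ Δ hΔ h
      have := hcode Δ hΔ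
      rw [← h] at this
      exact code_inj (hcode Γ hΓ) this
  rw [Finset.card_product, Finset.card_univ, Fintype.card_bool] at h1
  exact h1.trans (Nat.mul_le_mul_left 2 hS)

/-- **Upper bound.** -/
theorem N_le (n : ℕ) : N n ≤ 2 * (16 * n ^ 3 + 1) ^ (2 * n) := by
  refine le_trans ?_ (ncard_visGraphs_le n)
  unfold N
  have h : visClasses n ⊆ Quotient.mk (isoSetoid n) '' visGraphs n := by
    rintro q ⟨v, P, hP, rfl⟩
    exact ⟨_, ⟨v, P, hP, rfl⟩, rfl⟩
  exact (ncard_le_ncard h (toFinite _)).trans (ncard_image_le (toFinite _))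

end Pool.Agent.R922.Vis
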