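import Pool.Agent.R922.Vis.Low3
import Pool.Agent.R922.Vis.Up

/-!
# The growth rate of the number of visibility graphs
-/

namespace Pool.Agent.R922.Vis

open Set Vis124 Pool.Agent.TH695.BC

/-- The isomorphism classes of the visibility graphs of the simple polygons with `n` vertices that
have no straight angle. -/
def visClassesNS (n : ℕ) : Set (Quotient (isoSetoid n)) :=
  {q | ∃ (v : Fin n → ℝ × ℝ) (P : Set (ℝ × ℝ)), IsSimplePolygon v P ∧ NoStraight v ∧
    q = Quotient.mk (isoSetoid n) (visGraph v P)}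

/-- the number of these isomorphism classes -/
noncomputable def NS (n : ℕ) : ℕ := (visClassesNS n).ncard

theorem NS_le_N (n : ℕ) : NS n ≤ N n := by
  apply ncard_le_ncard _ (toFinite _)
  rintro q ⟨v, P, hP, -, rfl⟩
  exact ⟨v, P, hP, rfl⟩

/-- extension of a function on `Fin k` -/
def ext0 {k : ℕ} (f : Fin k → Fin k) (i : ℕ) : ℕ := if h : i < k then (f ⟨i, h⟩ : ℕ) else 0

lemma ext0_lt {k : ℕ} (f : Fin k → Fin k) (i : ℕ) (hi : i < k) : ext0 f i < k := by
  unfold ext0
  rw [dif_pos hi]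
  exact (f ⟨i, hi⟩).isLt

/-- **Lower bound.** -/
theorem NS_ge {n L k : ℕ} (hn : n = 2 * L + 2 ∨ n = 2 * L + 1) (hk : 1 ≤ k)
    (hkL : 9 * k + 1 ≤ L) : k ^ k ≤ NS n := by
  let Φ : (Fin k → Fin k) → Quotient (isoSetoid n) := fun f =>
    Quotient.mk (isoSetoid n) (Gam n L (wf k (ext0 f)))
  have h1 : (univ : Set (Fin k → Fin k)).ncard ≤ (visClassesNS n).ncard := by
    apply ncard_le_ncard_of_injOn Φ
    · intro f _
      exact ⟨_, _, (heights (wf k (ext0 f)) (by omega : 2 ≤ L) hn).isSimplePolygon,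
        noStraight_w (wf k (ext0 f)) (by omega : 2 ≤ L) hn, rfl⟩
    · intro f _ g _ h
      obtain ⟨e⟩ := Quotient.exact h
      have := params_eq hn hk hkL (ext0 f) (ext0 g) (ext0_lt f) (ext0_lt g) e
      funext i
      have h2 := this i i.isLt
      unfold ext0 at h2
      rw [dif_pos i.isLt, dif_pos i.isLt] at h2
      exact Fin.ext h2
  rw [ncard_univ, Nat.card_eq_fintype_card, Fintype.card_fun, Fintype.card_fin] at h1
  exact h1

theorem growth (n : ℕ) (hn : 400 ≤ n) :
    1 / 40 * (n * Real.logb 2 n) ≤ Real.logb 2 (NS n) ∧ NS n ≤ N n ∧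
      Real.logb 2 (N n) ≤ 8 * (n * Real.logb 2 n) := by
  have hn' : (400 : ℝ) ≤ n := by exact_mod_cast hn
  have hn0 : (0 : ℝ) < n := by linarith
  set L := (n - 1) / 2 with hLdef
  set k := (L - 1) / 9 with hkdef
  have hnL : n = 2 * L + 2 ∨ n = 2 * L + 1 := by omega
  have hk1 : 1 ≤ k := by omega
  have hkL : 9 * k + 1 ≤ L := by omega
  have hlow := NS_ge hnL hk1 hkL
  have hkn : n ≤ 20 * k := by omega
  have hkn' : (n : ℝ) / 20 ≤ k := by
    have : (n : ℝ) ≤ 20 * k := by exact_mod_cast hkn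
    linarith
  have hk0 : (0 : ℝ) < k := by linarith
  have hNSpos : (0 : ℝ) < NS n := by
    have : 0 < NS n := lt_of_lt_of_le (Nat.pow_pos hk1) hlow
    exact_mod_cast this
  have hNpos : (0 : ℝ) < N n := by
    have : NS n ≤ N n := NS_le_N n
    have : (NS n : ℝ) ≤ N n := by exact_mod_cast this
    linarith
  have hlog8 : 8 ≤ Real.logb 2 n := by
    rw [Real.le_logb_iff_rpow_le (by norm_num) hn0]
    have : (2 : ℝ) ^ (8 : ℝ) = 256 := by
      rw [show (8 : ℝ) = ((8 : ℕ) : ℝ) by norm_num, Real.rpow_natCast]; norm_num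
    rw [this]; linarith
  refine ⟨?_, NS_le_N n, ?_⟩
  · have h1 : Real.logb 2 ((k : ℝ) ^ k) ≤ Real.logb 2 (NS n) := by
      apply Real.logb_le_logb_of_le (by norm_num) (by positivity)
      exact_mod_cast hlow
    refine le_trans ?_ h1
    rw [Real.logb_pow]
    have h2 : Real.logb 2 n ≤ 2 * Real.logb 2 k := by
      have h3 : Real.logb 2 ((k : ℝ) ^ 2) = 2 * Real.logb 2 k := by
        rw [Real.logb_pow]; norm_num
      rw [← h3]
      apply Real.logb_le_logb_of_le (by norm_num) hn0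
      have : ((n : ℝ) / 20) ^ 2 ≤ (k : ℝ) ^ 2 := by
        apply pow_le_pow_left₀ (by positivity) hkn'
      nlinarith
    have h4 : 0 ≤ Real.logb 2 k := by linarith
    nlinarith
  · have h1 : (N n : ℝ) ≤ 2 * (32 * (n : ℝ) ^ 3) ^ (2 * n) := by
      have h2 := N_le n
      have h3 : 16 * n ^ 3 + 1 ≤ 32 * n ^ 3 := by
        have : 1 ≤ n ^ 3 := Nat.one_le_pow _ _ (by omega)
        omega
      have h4 : N n ≤ 2 * (32 * n ^ 3) ^ (2 * n) :=
        h2.trans (Nat.mul_le_mul_left 2 (Nat.pow_le_pow_left h3 _))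
      exact_mod_cast h4
    have h2 : Real.logb 2 (N n) ≤ Real.logb 2 (2 * (32 * (n : ℝ) ^ 3) ^ (2 * n)) :=
      Real.logb_le_logb_of_le (by norm_num) hNpos h1
    refine h2.trans ?_
    rw [Real.logb_mul (by norm_num) (by positivity), Real.logb_pow,
      Real.logb_mul (by norm_num) (by positivity), Real.logb_pow]
    have h3 : Real.logb 2 2 = 1 := Real.logb_self_eq_one (by norm_num)
    have h4 : Real.logb 2 32 = 5 := by
      rw [show (32 : ℝ) = 2 ^ 5 by norm_num, Real.logb_pow, h3]; norm_num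
    rw [h3, h4]
    push_cast
    nlinarith

end Pool.Agent.R922.Vis
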