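import Pool.Agent.TH695.BC.Straight

/-!
# Monotone polygons with valleys of prescribed sight: heights and visibility criteria
-/

namespace Pool.Agent.R922.Vis

open Set Vis124 Pool.Agent.TH695.BC

/-- heights of the upper chain: a strictly concave chain far above the lower one -/
noncomputable def tp (L x : ℕ) : ℝ := (L : ℝ) ^ 3 + (x : ℝ) * ((L : ℝ) - x)

/-- depth of the valley at `x`: the valley with parameter `w x ≥ 1` sees exactly the vertices of
the upper chain at distance at most `w x`; `w x = 0` stands for a shallow valley -/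
noncomputable def dp (L : ℕ) (w : ℕ → ℕ) (x : ℕ) : ℝ :=
  if w x = 0 then 1 else 2 * (L : ℝ) ^ 3 / (2 * (w x : ℝ) - 1)

/-- heights of the lower chain: peaks at even places, valleys at odd places, and a tip at the right
end if the number `n` of vertices is odd -/
noncomputable def bt (n L : ℕ) (w : ℕ → ℕ) (x : ℕ) : ℝ :=
  if n = 2 * L + 1 ∧ x = L then tp L L else if x % 2 = 0 then 0 else -dp L w x

lemma tp_ge {L x : ℕ} (hx : x ≤ L) : (L : ℝ) ^ 3 ≤ tp L x := by
  have h1 : (x : ℝ) ≤ L := by exact_mod_cast hx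
  have h2 : (0 : ℝ) ≤ x := Nat.cast_nonneg x
  unfold tp
  nlinarith

lemma tp_le (L x : ℕ) : tp L x ≤ (L : ℝ) ^ 3 + (L : ℝ) ^ 2 / 4 := by
  unfold tp
  nlinarith [sq_nonneg ((L : ℝ) - 2 * x)]

lemma tp_pos {L x : ℕ} (hL : 1 ≤ L) (hx : x ≤ L) : 0 < tp L x := by
  have h1 := tp_ge hx
  have h2 : (0 : ℝ) < L := by exact_mod_cast hL
  have : 0 < (L : ℝ) ^ 3 := by positivity
  linarith

lemma dp_pos {L : ℕ} {w : ℕ → ℕ} (hL : 1 ≤ L) (x : ℕ) : 0 < dp L w x := by
  unfold dp
  split_ifs with h
  · norm_num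
  · have h1 : (1 : ℝ) ≤ w x := by exact_mod_cast (Nat.one_le_iff_ne_zero.mpr h)
    have h2 : (0 : ℝ) < L := by exact_mod_cast hL
    have h3 : (0 : ℝ) < 2 * (w x : ℝ) - 1 := by linarith
    positivity

lemma bt_nonpos {n L : ℕ} {w : ℕ → ℕ} (hL : 1 ≤ L) {x : ℕ} (hx : ¬ (n = 2 * L + 1 ∧ x = L)) :
    bt n L w x ≤ 0 := by
  unfold bt
  rw [if_neg hx]
  split_ifs
  · exact le_rfl
  · have := dp_pos (w := w) hL x
    linarith

lemma bt_even {n L : ℕ} {w : ℕ → ℕ} {x : ℕ} (hx : ¬ (n = 2 * L + 1 ∧ x = L)) (h : x % 2 = 0) :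
    bt n L w x = 0 := by
  unfold bt
  rw [if_neg hx, if_pos h]

lemma bt_odd {n L : ℕ} {w : ℕ → ℕ} {x : ℕ} (hx : ¬ (n = 2 * L + 1 ∧ x = L)) (h : x % 2 = 1) :
    bt n L w x = -dp L w x := by
  unfold bt
  rw [if_neg hx, if_neg (by omega)]

lemma heights {n L : ℕ} (w : ℕ → ℕ) (hL : 2 ≤ L) (hn : n = 2 * L + 2 ∨ n = 2 * L + 1) :
    Heights n L (bt n L w) (tp L) where
  hL := hL
  lt k hk := by
    have h1 := bt_nonpos (n := n) (w := w) (by omega : 1 ≤ L) (x := k) (by omega)
    have h2 := tp_pos (by omega : 1 ≤ L) hk.le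
    linarith
  tip := by
    rcases hn with h | h
    · left
      refine ⟨h, ?_⟩
      have h1 := bt_nonpos (n := n) (w := w) (by omega : 1 ≤ L) (x := L) (by omega)
      have h2 := tp_pos (by omega : 1 ≤ L) (le_refl L)
      linarith
    · right
      refine ⟨h, ?_⟩
      unfold bt
      rw [if_pos ⟨h, rfl⟩]

lemma noStraight_w {n L : ℕ} (w : ℕ → ℕ) (hL : 2 ≤ L) (hn : n = 2 * L + 2 ∨ n = 2 * L + 1) :
    NoStraight (mv n L (bt n L w) (tp L)) := by
  apply (heights w hL hn).noStraight
  · intro k hk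
    have a0 : ¬ (n = 2 * L + 1 ∧ k = L) := by omega
    have a1 : ¬ (n = 2 * L + 1 ∧ k + 1 = L) := by omega
    have d0 := dp_pos (w := w) (by omega : 1 ≤ L) k
    have d1 := dp_pos (w := w) (by omega : 1 ≤ L) (k + 1)
    have d2 := dp_pos (w := w) (by omega : 1 ≤ L) (k + 2)
    have t2 := tp_pos (by omega : 1 ≤ L) (le_refl L)
    have tL : tp L L = (L : ℝ) ^ 3 := by unfold tp; ring
    by_cases a2 : n = 2 * L + 1 ∧ k + 2 = L
    · have e2 : bt n L w (k + 2) = tp L L := by unfold bt; rw [if_pos a2]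
      rw [e2]
      rcases Nat.mod_two_eq_zero_or_one k with h | h
      · rw [bt_even a0 h, bt_odd a1 (by omega)]
        intro h'; linarith
      · rw [bt_odd a0 h, bt_even a1 (by omega)]
        intro h'
        -- tp L L = dp k is excluded: `dp k` is never `L ^ 3`
        rw [tL] at h'
        have h3 : dp L w k = (L : ℝ) ^ 3 := by linarith
        unfold dp at h3
        have hL2 : (2 : ℝ) ≤ L := by exact_mod_cast hL
        split_ifs at h3 with h4
        · nlinarith [sq_nonneg ((L : ℝ) - 2), sq_nonneg (L : ℝ)]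
        · have h5 : (1 : ℝ) ≤ w k := by exact_mod_cast (Nat.one_le_iff_ne_zero.mpr h4)
          have h6 : (2 * (w k : ℝ) - 1) ≠ 0 := by linarith
          rw [div_eq_iff h6] at h3
          have h7 : (L : ℝ) ^ 3 ≠ 0 := by positivity
          have h8 : 2 * (w k : ℝ) - 1 = 2 := by
            apply mul_left_cancel₀ h7
            linarith
          have h9 : 2 * (w k : ℝ) = 3 := by linarith
          have h10 : 2 * w k = 3 := by exact_mod_cast h9
          omega
    · rcases Nat.mod_two_eq_zero_or_one k with h | h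
      · rw [bt_even a0 h, bt_odd a1 (by omega), bt_even a2 (by omega)]
        intro h'; linarith
      · rw [bt_odd a0 h, bt_even a1 (by omega), bt_odd a2 (by omega)]
        intro h'; linarith
  · intro k hk
    unfold tp
    push_cast
    intro h
    ring_nf at h
    norm_num at h

/-- visibility between two points above different integers -/
lemma seg_crit {L : ℕ} {G H : ℕ → ℝ} (a b : ℕ) (hab : a ≠ b) (ha : a ≤ L) (hb : b ≤ L)
    (ya yb : ℝ) :
    segment ℝ ((a : ℝ), ya) ((b : ℝ), yb) ⊆ region L (pl G L) (pl H L) ↔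
      ∀ k : ℕ, min a b ≤ k → k ≤ max a b →
        G k ≤ ya + ((k : ℝ) - a) / ((b : ℝ) - a) * (yb - ya) ∧
        ya + ((k : ℝ) - a) / ((b : ℝ) - a) * (yb - ya) ≤ H k := by
  rcases lt_or_gt_of_ne hab with h | h
  · rw [seg_region a b h hb, min_eq_left h.le, max_eq_right h.le]
  · have h' : (b : ℝ) < a := by exact_mod_cast h
    rw [segment_symm, seg_region b a h ha, min_eq_right h.le, max_eq_left h.le]
    have e : ∀ k : ℕ, yb + ((k : ℝ) - b) / ((a : ℝ) - b) * (ya - yb) =
        ya + ((k : ℝ) - a) / ((b : ℝ) - a) * (yb - ya) := by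
      intro k
      have h1 : (a : ℝ) - b ≠ 0 := by linarith
      have h2 : (b : ℝ) - a ≠ 0 := by linarith
      field_simp
      ring
    constructor
    · intro h3 k h4 h5
      have := h3 k h4 h5
      rw [e k] at this
      exact this
    · intro h3 k h4 h5
      have := h3 k h4 h5
      rw [e k]
      exact this

/-- the parameter of an integer between `a` and `b` -/
lemma par {a b k : ℕ} (hab : a ≠ b) (h1 : min a b ≤ k) (h2 : k ≤ max a b) (hka : k ≠ a) :
    0 < ((k : ℝ) - a) / ((b : ℝ) - a) ∧ ((k : ℝ) - a) / ((b : ℝ) - a) ≤ 1 ∧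
      1 / |(b : ℝ) - a| ≤ ((k : ℝ) - a) / ((b : ℝ) - a) := by
  rcases lt_or_gt_of_ne hab with h | h
  · rw [min_eq_left h.le] at h1
    rw [max_eq_right h.le] at h2
    have e1 : (a : ℝ) + 1 ≤ k := by exact_mod_cast (by omega : a + 1 ≤ k)
    have e2 : (k : ℝ) ≤ b := by exact_mod_cast h2
    have e3 : 0 < (b : ℝ) - a := by linarith
    refine ⟨div_pos (by linarith) e3, (div_le_one e3).mpr (by linarith), ?_⟩
    rw [abs_of_pos e3]
    exact div_le_div_of_nonneg_right (by linarith) e3.le
  · rw [min_eq_right h.le] at h1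
    rw [max_eq_left h.le] at h2
    have e1 : (k : ℝ) + 1 ≤ a := by exact_mod_cast (by omega : k + 1 ≤ a)
    have e2 : (b : ℝ) ≤ k := by exact_mod_cast h1
    have e3 : 0 < (a : ℝ) - b := by linarith
    have e4 : ((k : ℝ) - a) / ((b : ℝ) - a) = ((a : ℝ) - k) / ((a : ℝ) - b) := by
      rw [← neg_sub (a : ℝ) k, ← neg_sub (a : ℝ) b, neg_div_neg_eq]
    rw [e4, abs_sub_comm, abs_of_pos e3]
    exact ⟨div_pos (by linarith) e3, (div_le_one e3).mpr (by linarith),
      div_le_div_of_nonneg_right (by linarith) e3.le⟩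

/-- chords of the upper chain stay below it -/
lemma chord {L a b k : ℕ} (hab : a ≠ b) (h1 : min a b ≤ k) (h2 : k ≤ max a b) :
    tp L a + ((k : ℝ) - a) / ((b : ℝ) - a) * (tp L b - tp L a) ≤ tp L k := by
  have hab' : (b : ℝ) - a ≠ 0 := by
    intro h
    apply hab
    have : (b : ℝ) = a := by linarith
    exact_mod_cast this.symm
  have e : tp L a + ((k : ℝ) - a) / ((b : ℝ) - a) * (tp L b - tp L a) =
      tp L k - ((k : ℝ) - a) * ((b : ℝ) - k) := by
    unfold tp
    field_simp
    ring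
  rw [e]
  have : 0 ≤ ((k : ℝ) - a) * ((b : ℝ) - k) := by
    rcases lt_or_gt_of_ne hab with h | h
    · rw [min_eq_left h.le] at h1
      rw [max_eq_right h.le] at h2
      have e1 : (a : ℝ) ≤ k := by exact_mod_cast h1
      have e2 : (k : ℝ) ≤ b := by exact_mod_cast h2
      exact mul_nonneg (by linarith) (by linarith)
    · rw [min_eq_right h.le] at h1
      rw [max_eq_left h.le] at h2
      have e1 : (b : ℝ) ≤ k := by exact_mod_cast h1
      have e2 : (k : ℝ) ≤ a := by exact_mod_cast h2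
      exact mul_nonneg_of_nonpos_of_nonpos (by linarith) (by linarith)
  linarith

/-- a sufficient condition for visibility of a vertex of the upper chain -/
lemma sees {n L : ℕ} {w : ℕ → ℕ} (hL : 2 ≤ L) {a b : ℕ} (hab : a ≠ b) (ha : a ≤ L) (hb : b ≤ L)
    (ya : ℝ) (h1 : bt n L w a ≤ ya) (h2 : ya ≤ tp L a)
    (h3 : -ya * (|(b : ℝ) - a| - 1) ≤ tp L b) :
    segment ℝ ((a : ℝ), ya) ((b : ℝ), tp L b) ⊆
      region L (pl (bt n L w) L) (pl (tp L) L) := by
  rw [seg_crit a b hab ha hb]
  intro k hk1 hk2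
  by_cases hka : k = a
  · subst hka
    simp only [sub_self, zero_div, zero_mul, add_zero]
    exact ⟨h1, h2⟩
  obtain ⟨p1, p2, p3⟩ := par hab hk1 hk2 hka
  set t := ((k : ℝ) - a) / ((b : ℝ) - a) with ht
  have hup : ya + t * (tp L b - ya) ≤ tp L k := by
    have := chord (L := L) hab hk1 hk2
    rw [← ht] at this
    nlinarith
  refine ⟨?_, hup⟩
  by_cases hkb : k = b
  · subst hkb
    have ht1 : t = 1 := by
      rw [ht]
      apply div_self
      intro h
      apply hka
      have : (k : ℝ) = a := by linarith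
      exact_mod_cast this
    rw [ht1]
    have h4 : bt n L w k ≤ tp L k := by
      by_cases hx : n = 2 * L + 1 ∧ k = L
      · unfold bt; rw [if_pos hx, hx.2]
      · exact (bt_nonpos (by omega) hx).trans (tp_pos (by omega) hb).le
    linarith
  · have hkL : k < L := by
      rcases lt_or_gt_of_ne hab with h | h
      · rw [max_eq_right h.le] at hk2
        omega
      · rw [max_eq_left h.le] at hk2
        omega
    refine (bt_nonpos (by omega) (by omega)).trans ?_
    have hd : 0 < |(b : ℝ) - a| := by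
      rw [abs_pos]
      intro h
      apply hab
      have : (b : ℝ) = a := by linarith
      exact_mod_cast this.symm
    rcases le_or_gt 0 ya with h5 | h5
    · have := tp_pos (by omega : 1 ≤ L) hb
      nlinarith
    · have h6 : 0 < tp L b - ya := by
        have := tp_pos (by omega : 1 ≤ L) hb
        linarith
      have h7 : 1 / |(b : ℝ) - a| * (tp L b - ya) ≤ t * (tp L b - ya) :=
        mul_le_mul_of_nonneg_right p3 h6.le
      have h8 : -ya ≤ 1 / |(b : ℝ) - a| * (tp L b - ya) := by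
        rw [div_mul_eq_mul_div, one_mul, le_div_iff₀ hd]
        linarith
      linarith

/-- a necessary condition for visibility -/
lemma not_sees {n L : ℕ} {w : ℕ → ℕ} {a b : ℕ} (ha : a % 2 = 1) (ha2 : a < L)
    (hb : b ≤ L) (hab : 2 ≤ |(b : ℝ) - a|) (hL : a + 1 < L ∨ b < a)
    (ya yb : ℝ) (h3 : yb < -ya * (|(b : ℝ) - a| - 1)) :
    ¬ segment ℝ ((a : ℝ), ya) ((b : ℝ), yb) ⊆
      region L (pl (bt n L w) L) (pl (tp L) L) := by
  have hne : a ≠ b := by
    rintro rfl
    simp at hab
    linarith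
  rw [seg_crit a b hne ha2.le hb]
  intro h
  rcases lt_or_gt_of_ne hne with hlt | hlt
  · have h1 := (h (a + 1) (by rw [min_eq_left hlt.le]; omega)
      (by rw [max_eq_right hlt.le]; omega)).1
    have hb' : (a : ℝ) < b := by exact_mod_cast hlt
    have e3 : 0 < (b : ℝ) - a := by linarith
    rw [abs_of_pos e3] at hab h3
    rw [bt_even (by omega) (by omega)] at h1
    push_cast at h1
    have e4 : ((a : ℝ) + 1 - a) = 1 := by ring
    rw [e4, div_mul_eq_mul_div, one_mul] at h1
    have h5 : -ya ≤ (yb - ya) / ((b : ℝ) - a) := by linarith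
    rw [le_div_iff₀ e3] at h5
    linarith
  · have h1 := (h (a - 1) (by rw [min_eq_right hlt.le]; omega)
      (by rw [max_eq_left hlt.le]; omega)).1
    have hb' : (b : ℝ) < a := by exact_mod_cast hlt
    have e3 : (b : ℝ) - a < 0 := by linarith
    rw [abs_of_neg e3] at hab h3
    rw [bt_even (by omega) (by omega)] at h1
    rw [Nat.cast_sub (by omega)] at h1
    push_cast at h1
    have e4 : ((a : ℝ) - 1 - a) / ((b : ℝ) - a) = 1 / ((a : ℝ) - b) := by
      rw [← neg_sub (a : ℝ) b]
      have : (a : ℝ) - b ≠ 0 := by linarith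
      field_simp
      ring
    rw [e4, div_mul_eq_mul_div, one_mul] at h1
    have e5 : 0 < (a : ℝ) - b := by linarith
    have h5 : -ya ≤ (yb - ya) / ((a : ℝ) - b) := by linarith
    rw [le_div_iff₀ e5] at h5
    linarith

end Pool.Agent.R922.Vis
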