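import Pool.Agent.R922.Vis.Low1

/-!
# Adjacency and degrees in the visibility graph
-/

namespace Pool.Agent.R922.Vis

open Set Vis124 Pool.Agent.TH695.BC

/-- the visibility graph of the polygon with parameters `w` -/
noncomputable def Gam (n L : ℕ) (w : ℕ → ℕ) : SimpleGraph (Fin n) :=
  visGraph (mv n L (bt n L w) (tp L)) (region L (pl (bt n L w) L) (pl (tp L) L))

lemma Gam_adj {n L : ℕ} {w : ℕ → ℕ} (i j : Fin n) : (Gam n L w).Adj i j ↔ i ≠ j ∧
    segment ℝ (mv n L (bt n L w) (tp L) i) (mv n L (bt n L w) (tp L) j) ⊆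
      region L (pl (bt n L w) L) (pl (tp L) L) := Iff.rfl

/-- the vertex of the lower chain at `x` -/
def bI (n : ℕ) (hn0 : 0 < n) (x : ℕ) : Fin n := ⟨min x (n - 1), by omega⟩

/-- the vertex of the upper chain at `x` -/
def tI (n : ℕ) (hn0 : 0 < n) (x : ℕ) : Fin n := ⟨n - 1 - x, by omega⟩

/-- all vertices of the upper chain except the one at `x` -/
def tops (n : ℕ) (hn0 : 0 < n) (L x : ℕ) : Set (Fin n) := tI n hn0 '' {j | j ≤ L ∧ j ≠ x}

section

variable {n L : ℕ} {w : ℕ → ℕ} (hL : 2 ≤ L) (hn : n = 2 * L + 2 ∨ n = 2 * L + 1)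

include hn in
lemma mv_bI (hn0 : 0 < n) {x : ℕ} (hx : x ≤ L) :
    mv n L (bt n L w) (tp L) (bI n hn0 x) = ((x : ℝ), bt n L w x) := by
  have h : ((bI n hn0 x : Fin n) : ℕ) = x := by
    unfold bI
    simp only
    omega
  unfold mv
  rw [h, if_pos hx]

include hL hn in
lemma mv_tI (hn0 : 0 < n) {x : ℕ} (hx : x ≤ L) :
    mv n L (bt n L w) (tp L) (tI n hn0 x) = ((x : ℝ), tp L x) := by
  have h : ((tI n hn0 x : Fin n) : ℕ) = n - 1 - x := rfl
  unfold mv
  rw [h]
  by_cases h1 : n - 1 - x ≤ L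
  · have h2 : n = 2 * L + 1 ∧ x = L := by omega
    rw [if_pos h1]
    have h3 : n - 1 - x = L := by omega
    rw [h3, h2.2]
    unfold bt
    rw [if_pos ⟨h2.1, rfl⟩]
  · rw [if_neg h1]
    have h3 : n - 1 - (n - 1 - x) = x := by omega
    rw [h3]

include hL hn in
lemma index_cases (hn0 : 0 < n) (u : Fin n) : (∃ x, x ≤ L ∧ u = tI n hn0 x) ∨
    (∃ x, x ≤ L ∧ ¬ (n = 2 * L + 1 ∧ x = L) ∧ u = bI n hn0 x) := by
  have hu := u.isLt
  by_cases h : n - 1 - (u : ℕ) ≤ L
  · left
    refine ⟨n - 1 - u, h, ?_⟩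
    apply Fin.ext
    unfold tI
    simp only
    omega
  · right
    refine ⟨u, by omega, by omega, ?_⟩
    apply Fin.ext
    unfold bI
    simp only
    omega

include hn in
lemma tI_ne_bI (hn0 : 0 < n) {x y : ℕ} (hx : x ≤ L) (hy : y ≤ L)
    (h : ¬ (n = 2 * L + 1 ∧ y = L)) : tI n hn0 x ≠ bI n hn0 y := by
  intro h1
  have := congrArg Fin.val h1
  unfold tI bI at this
  simp only at this
  omega

include hn in
lemma tI_inj (hn0 : 0 < n) {x y : ℕ} (hx : x ≤ L) (hy : y ≤ L)
    (h : tI n hn0 x = tI n hn0 y) : x = y := by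
  have := congrArg Fin.val h
  unfold tI at this
  simp only at this
  omega

include hn in
lemma bI_inj (hn0 : 0 < n) {x y : ℕ} (hx : x ≤ L) (hy : y ≤ L)
    (h : bI n hn0 x = bI n hn0 y) : x = y := by
  have := congrArg Fin.val h
  unfold bI at this
  simp only at this
  omega

/-- the degree of a vertex -/
noncomputable def dg {n : ℕ} (Γ : SimpleGraph (Fin n)) (u : Fin n) : ℕ := {v | Γ.Adj u v}.ncard

/-- the number of common neighbours -/
noncomputable def cn {n : ℕ} (Γ : SimpleGraph (Fin n)) (u u' : Fin n) : ℕ :=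
  {v | Γ.Adj u v ∧ Γ.Adj u' v}.ncard

lemma dg_iso {n : ℕ} {Γ Δ : SimpleGraph (Fin n)} (e : Γ ≃g Δ) (u : Fin n) :
    dg Δ (e u) = dg Γ u := by
  unfold dg
  have : {v | Δ.Adj (e u) v} = e '' {v | Γ.Adj u v} := by
    ext v
    simp only [mem_ofPred_eq, mem_image]
    constructor
    · intro h
      refine ⟨e.symm v, ?_, by simp⟩
      rw [← e.map_adj_iff]
      simpa using h
    · rintro ⟨x, hx, rfl⟩
      exact e.map_adj_iff.mpr hx
  rw [this, ncard_image_of_injective _ e.injective]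

lemma cn_iso {n : ℕ} {Γ Δ : SimpleGraph (Fin n)} (e : Γ ≃g Δ) (u u' : Fin n) :
    cn Δ (e u) (e u') = cn Γ u u' := by
  unfold cn
  have : {v | Δ.Adj (e u) v ∧ Δ.Adj (e u') v} = e '' {v | Γ.Adj u v ∧ Γ.Adj u' v} := by
    ext v
    simp only [mem_ofPred_eq, mem_image]
    constructor
    · rintro ⟨h, h'⟩
      refine ⟨e.symm v, ⟨?_, ?_⟩, by simp⟩
      · rw [← e.map_adj_iff]
        simpa using h
      · rw [← e.map_adj_iff]
        simpa using h'
    · rintro ⟨x, ⟨hx, hx'⟩, rfl⟩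
      exact ⟨e.map_adj_iff.mpr hx, e.map_adj_iff.mpr hx'⟩
  rw [this, ncard_image_of_injective _ e.injective]

lemma abs_sub_le_L {L a b : ℕ} (ha : a ≤ L) (hb : b ≤ L) : |(b : ℝ) - a| ≤ L := by
  have h1 : (a : ℝ) ≤ L := by exact_mod_cast ha
  have h2 : (b : ℝ) ≤ L := by exact_mod_cast hb
  have h3 : (0 : ℝ) ≤ a := Nat.cast_nonneg a
  have h4 : (0 : ℝ) ≤ b := Nat.cast_nonneg b
  rw [abs_le]
  constructor <;> linarith

include hL hn in
/-- the vertices of the upper chain see each other -/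
lemma adj_tt (hn0 : 0 < n) {a b : ℕ} (ha : a ≤ L) (hb : b ≤ L) (hab : a ≠ b) :
    (Gam n L w).Adj (tI n hn0 a) (tI n hn0 b) := by
  rw [Gam_adj, mv_tI hL hn hn0 ha, mv_tI hL hn hn0 hb]
  refine ⟨fun h => hab (tI_inj hn hn0 ha hb h), ?_⟩
  have h1 := tp_pos (by omega : 1 ≤ L) ha
  have h2 := tp_pos (by omega : 1 ≤ L) hb
  apply sees hL hab ha hb _ _ le_rfl
  · have hd : 1 ≤ |(b : ℝ) - a| := by
      have : (1 : ℤ) ≤ |(b : ℤ) - a| := by
        apply Int.one_le_abs
        omega
      exact_mod_cast this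
    nlinarith
  · by_cases hx : n = 2 * L + 1 ∧ a = L
    · unfold bt; rw [if_pos hx, hx.2]
    · exact (bt_nonpos (by omega) hx).trans h1.le

include hL hn in
/-- peaks and shallow valleys see the vertices of the upper chain -/
lemma adj_bt (hn0 : 0 < n) {a b : ℕ} (ha : a ≤ L) (hb : b ≤ L) (hab : a ≠ b)
    (hx : ¬ (n = 2 * L + 1 ∧ a = L)) (hw : a % 2 = 0 ∨ w a = 0) :
    (Gam n L w).Adj (bI n hn0 a) (tI n hn0 b) := by
  rw [Gam_adj, mv_bI hn hn0 ha, mv_tI hL hn hn0 hb]
  refine ⟨(tI_ne_bI hn hn0 hb ha hx).symm, ?_⟩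
  have h1 := tp_pos (by omega : 1 ≤ L) ha
  have h2 := bt_nonpos (w := w) (by omega : 1 ≤ L) hx
  apply sees hL hab ha hb _ le_rfl (h2.trans h1.le)
  have h3 : -1 ≤ bt n L w a := by
    unfold bt
    rw [if_neg hx]
    split_ifs with h
    · norm_num
    · unfold dp
      rw [if_pos (by rcases hw with h' | h'; exact absurd h' h; exact h')]
  have h4 := tp_ge hb
  have h5 := abs_sub_le_L ha hb
  have h6 : (2 : ℝ) ≤ L := by exact_mod_cast hL
  have h7 : (L : ℝ) ≤ (L : ℝ) ^ 3 := by nlinarith [sq_nonneg ((L : ℝ) - 1), sq_nonneg (L : ℝ)]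
  have h8 : 0 ≤ |(b : ℝ) - a| := abs_nonneg _
  have h9 : 1 ≤ |(b : ℝ) - a| := by
    have : (1 : ℤ) ≤ |(b : ℤ) - a| := by
      apply Int.one_le_abs
      omega
    exact_mod_cast this
  nlinarith

include hn in
lemma ncard_tops (hn0 : 0 < n) {x : ℕ} (hx : x ≤ L) : (tops n hn0 L x).ncard = L := by
  unfold tops
  rw [InjOn.ncard_image]
  · have : {j | j ≤ L ∧ j ≠ x} = (((Finset.range (L + 1)).erase x : Finset ℕ) : Set ℕ) := by
      ext j
      simp only [mem_ofPred_eq, Finset.coe_erase, Finset.coe_range, mem_sdiff, mem_Iio,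
        mem_singleton_iff]
      omega
    rw [this, ncard_coe_finset, Finset.card_erase_of_mem (by rw [Finset.mem_range]; omega),
      Finset.card_range]
    omega
  · intro a ha b hb h
    exact tI_inj hn hn0 ha.1 hb.1 h

include hL hn in
lemma dg_top (hn0 : 0 < n) {x : ℕ} (hx : x ≤ L) : L ≤ dg (Gam n L w) (tI n hn0 x) := by
  refine (ncard_tops hn hn0 hx).symm.le.trans ?_
  apply ncard_le_ncard _ (toFinite _)
  rintro _ ⟨j, ⟨hj1, hj2⟩, rfl⟩
  exact adj_tt hL hn hn0 hx hj1 (Ne.symm hj2)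

include hL hn in
lemma dg_big (hn0 : 0 < n) {x : ℕ} (hx : x ≤ L) (hx' : ¬ (n = 2 * L + 1 ∧ x = L))
    (hw : x % 2 = 0 ∨ w x = 0) : L ≤ dg (Gam n L w) (bI n hn0 x) := by
  refine (ncard_tops hn hn0 hx).symm.le.trans ?_
  apply ncard_le_ncard _ (toFinite _)
  rintro _ ⟨j, ⟨hj1, hj2⟩, rfl⟩
  exact adj_bt hL hn hn0 hx hj1 (Ne.symm hj2) hx' hw

lemma abs_cast {a b : ℕ} : |(b : ℝ) - a| = ((max a b - min a b : ℕ) : ℝ) := by
  rcases le_total a b with h | h
  · have h' : (a : ℝ) ≤ b := by exact_mod_cast h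
    rw [max_eq_right h, min_eq_left h, Nat.cast_sub h, abs_of_nonneg (by linarith)]
  · have h' : (b : ℝ) ≤ a := by exact_mod_cast h
    rw [max_eq_left h, min_eq_right h, Nat.cast_sub h, abs_of_nonpos (by linarith)]
    ring

include hL hn in
/-- the neighbours of a deep valley -/
lemma adj_low (hn0 : 0 < n) {x : ℕ} (hx : x % 2 = 1) (hxL : x + 1 < L) (hw : w x ≠ 0)
    (hwL : w x ≤ L) (u : Fin n) :
    (Gam n L w).Adj (bI n hn0 x) u ↔ u = bI n hn0 (x - 1) ∨ u = bI n hn0 (x + 1) ∨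
      ∃ j, j ≤ L ∧ j ≤ x + w x ∧ x ≤ j + w x ∧ u = tI n hn0 j := by
  have hx' : ¬ (n = 2 * L + 1 ∧ x = L) := by omega
  have hq : bt n L w x = -(2 * (L : ℝ) ^ 3 / (2 * (w x : ℝ) - 1)) := by
    rw [bt_odd hx' hx]
    unfold dp
    rw [if_neg hw]
  have hw1 : (1 : ℝ) ≤ w x := by exact_mod_cast (Nat.one_le_iff_ne_zero.mpr hw)
  have hw2 : (w x : ℝ) ≤ L := by exact_mod_cast hwL
  have hL0 : (0 : ℝ) < L := by linarith
  have hden : (0 : ℝ) < 2 * (w x : ℝ) - 1 := by linarith
  have hqpos : 0 < 2 * (L : ℝ) ^ 3 / (2 * (w x : ℝ) - 1) := by positivity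
  have hxle : x ≤ L := by omega
  have hself : ∀ u', (Gam n L w).Adj (bI n hn0 x) u' ↔ bI n hn0 x ≠ u' ∧
      segment ℝ ((x : ℝ), bt n L w x) (mv n L (bt n L w) (tp L) u') ⊆
      region L (pl (bt n L w) L) (pl (tp L) L) := by
    intro u'
    rw [Gam_adj, mv_bI hn hn0 hxle]
  rw [hself]
  rcases index_cases hL hn hn0 u with ⟨j, hj, rfl⟩ | ⟨y, hy, hy', rfl⟩
  · -- a vertex of the upper chain
    have hne := (tI_ne_bI hn hn0 hj hxle hx').symm
    have hrhs : (tI n hn0 j = bI n hn0 (x - 1) ∨ tI n hn0 j = bI n hn0 (x + 1) ∨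
        ∃ j', j' ≤ L ∧ j' ≤ x + w x ∧ x ≤ j' + w x ∧ tI n hn0 j = tI n hn0 j') ↔
        (j ≤ x + w x ∧ x ≤ j + w x) := by
      constructor
      · rintro (h | h | ⟨j', h1, h2, h3, h4⟩)
        · exact absurd h (tI_ne_bI hn hn0 hj (by omega) (by omega))
        · exact absurd h (tI_ne_bI hn hn0 hj (by omega) (by omega))
        · have := tI_inj hn hn0 hj h1 h4
          subst this
          exact ⟨h2, h3⟩
      · rintro ⟨h1, h2⟩
        exact Or.inr (Or.inr ⟨j, hj, h1, h2, rfl⟩)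
    rw [hrhs, mv_tI hL hn hn0 hj]
    by_cases hjx : j = x
    · subst hjx
      constructor
      · intro _
        omega
      · intro _
        refine ⟨hne, ?_⟩
        intro p hp
        have hlt := (heights w hL hn).lt j (by omega)
        rw [mem_vseg hlt.le] at hp
        obtain ⟨h1, h2, h3⟩ := hp
        have h4 : (j : ℝ) ≤ L := by exact_mod_cast hxle
        refine ⟨by rw [h1]; positivity, by rw [h1]; exact h4, ?_, ?_⟩
        · rw [h1, pl_nat _ _ _ hxle]; exact h2
        · rw [h1, pl_nat _ _ _ hxle]; exact h3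
    · have hxj : x ≠ j := Ne.symm hjx
      constructor
      · rintro ⟨-, hseg⟩
        by_contra hcon
        have hd : w x + 1 ≤ max x j - min x j := by
          rcases le_total x j with h | h
          · rw [max_eq_right h, min_eq_left h]; omega
          · rw [max_eq_left h, min_eq_right h]; omega
        have hd' : (w x : ℝ) + 1 ≤ |(j : ℝ) - x| := by
          rw [abs_cast]
          exact_mod_cast hd
        refine not_sees (n := n) (w := w) hx (by omega) hj (by linarith) (Or.inl hxL) _ _ ?_ hseg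
        rw [hq, neg_neg]
        have h1 : 2 * (L : ℝ) ^ 3 / (2 * (w x : ℝ) - 1) * (w x : ℝ) ≤
            2 * (L : ℝ) ^ 3 / (2 * (w x : ℝ) - 1) * (|(j : ℝ) - x| - 1) :=
          mul_le_mul_of_nonneg_left (by linarith) hqpos.le
        refine lt_of_lt_of_le ?_ h1
        have h2 := tp_le L j
        refine lt_of_le_of_lt h2 ?_
        rw [div_mul_eq_mul_div, lt_div_iff₀ hden]
        have h3 : (0 : ℝ) < (L : ℝ) ^ 2 := by positivity
        nlinarith
      · rintro ⟨h1, h2⟩
        refine ⟨hne, ?_⟩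
        have hlt := (heights w hL hn).lt x (by omega)
        apply sees hL hxj hxle hj _ le_rfl hlt.le
        have hd : max x j - min x j ≤ w x := by
          rcases le_total x j with h | h
          · rw [max_eq_right h, min_eq_left h]; omega
          · rw [max_eq_left h, min_eq_right h]; omega
        have hd' : |(j : ℝ) - x| ≤ (w x : ℝ) := by
          rw [abs_cast]
          exact_mod_cast hd
        rw [hq, neg_neg]
        have h3 : 2 * (L : ℝ) ^ 3 / (2 * (w x : ℝ) - 1) * (|(j : ℝ) - x| - 1) ≤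
            2 * (L : ℝ) ^ 3 / (2 * (w x : ℝ) - 1) * ((w x : ℝ) - 1) :=
          mul_le_mul_of_nonneg_left (by linarith) hqpos.le
        refine h3.trans ((?_ : _ ≤ (L : ℝ) ^ 3).trans (tp_ge hj))
        rw [div_mul_eq_mul_div, div_le_iff₀ hden]
        have h4 : (0 : ℝ) < (L : ℝ) ^ 3 := by positivity
        nlinarith
  · -- a vertex of the lower chain
    have hrhs : (bI n hn0 y = bI n hn0 (x - 1) ∨ bI n hn0 y = bI n hn0 (x + 1) ∨
        ∃ j', j' ≤ L ∧ j' ≤ x + w x ∧ x ≤ j' + w x ∧ bI n hn0 y = tI n hn0 j') ↔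
        (y = x - 1 ∨ y = x + 1) := by
      constructor
      · rintro (h | h | ⟨j', h1, h2, h3, h4⟩)
        · exact Or.inl (bI_inj hn hn0 hy (by omega) h)
        · exact Or.inr (bI_inj hn hn0 hy (by omega) h)
        · exact absurd h4.symm (tI_ne_bI hn hn0 h1 hy hy')
      · rintro (rfl | rfl)
        · exact Or.inl rfl
        · exact Or.inr (Or.inl rfl)
    rw [hrhs, mv_bI hn hn0 hy]
    constructor
    · rintro ⟨hne, hseg⟩
      have hyx : y ≠ x := fun h => hne (by rw [h])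
      by_contra hcon
      have hd : 2 ≤ max x y - min x y := by
        rcases le_total x y with h | h
        · rw [max_eq_right h, min_eq_left h]; omega
        · rw [max_eq_left h, min_eq_right h]; omega
      have hd' : 2 ≤ |(y : ℝ) - x| := by
        rw [abs_cast]
        exact_mod_cast hd
      refine not_sees (n := n) (w := w) hx (by omega) hy hd' (Or.inl hxL) _ _ ?_ hseg
      have h1 := bt_nonpos (w := w) (by omega : 1 ≤ L) hy'
      rw [hq, neg_neg]
      nlinarith
    · intro h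
      have hxy : x ≠ y := by omega
      refine ⟨fun h' => hxy (bI_inj hn hn0 hxle hy h'), ?_⟩
      rw [seg_crit x y hxy hxle hy]
      intro k hk1 hk2
      have hk : k = x ∨ k = y := by
        rcases le_total x y with h' | h'
        · rw [min_eq_left h'] at hk1
          rw [max_eq_right h'] at hk2
          omega
        · rw [min_eq_right h'] at hk1
          rw [max_eq_left h'] at hk2
          omega
      have hlx := (heights w hL hn).lt x (by omega)
      have hly := (heights w hL hn).lt y (by omega)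
      rcases hk with rfl | rfl
      · simp only [sub_self, zero_div, zero_mul, add_zero]
        exact ⟨le_rfl, hlx.le⟩
      · have h1 : ((k : ℝ) - x) / ((k : ℝ) - x) = 1 := by
          apply div_self
          intro h2
          apply hxy
          have : (k : ℝ) = x := by linarith
          exact_mod_cast this.symm
        rw [h1, one_mul, add_sub_cancel]
        exact ⟨le_rfl, hly.le⟩

end

end Pool.Agent.R922.Vis
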