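import Pool.Agent.R922.Vis.Low2

/-!
# The visibility graph determines the parameters of the valleys
-/

namespace Pool.Agent.R922.Vis

open Set Vis124 Pool.Agent.TH695.BC

section

variable {n L : ℕ} {w : ℕ → ℕ} (hL : 2 ≤ L) (hn : n = 2 * L + 2 ∨ n = 2 * L + 1)

include hL hn in
/-- the degree of a deep valley -/
lemma dg_low (hn0 : 0 < n) {x : ℕ} (hx : x % 2 = 1) (hxL : x + 1 < L) (hw : w x ≠ 0)
    (hwL : x + w x ≤ L) :
    dg (Gam n L w) (bI n hn0 x) = 2 + (x + w x + 1 - (x - w x)) := by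
  have h1 : {v | (Gam n L w).Adj (bI n hn0 x) v} =
      {bI n hn0 (x - 1), bI n hn0 (x + 1)} ∪
        tI n hn0 '' (Finset.Icc (x - w x) (x + w x) : Finset ℕ) := by
    ext v
    rw [mem_ofPred_eq, adj_low hL hn hn0 hx hxL hw (by omega)]
    simp only [mem_union, mem_insert_iff, mem_singleton_iff, mem_image, Finset.coe_Icc,
      mem_Icc]
    constructor
    · rintro (h | h | ⟨j, h1, h2, h3, h4⟩)
      · exact Or.inl (Or.inl h)
      · exact Or.inl (Or.inr h)
      · exact Or.inr ⟨j, ⟨by omega, by omega⟩, h4.symm⟩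
    · rintro ((h | h) | ⟨j, ⟨h1, h2⟩, h3⟩)
      · exact Or.inl h
      · exact Or.inr (Or.inl h)
      · exact Or.inr (Or.inr ⟨j, by omega, by omega, by omega, h3.symm⟩)
  unfold dg
  rw [h1, ncard_union_eq, ncard_pair, InjOn.ncard_image, ncard_coe_finset, Nat.card_Icc]
  · intro a ha b hb h
    simp only [Finset.coe_Icc, mem_Icc] at ha hb
    exact tI_inj hn hn0 (by omega) (by omega) h
  · intro h
    have := bI_inj hn hn0 (by omega) (by omega) h
    omega
  · rw [Set.disjoint_left]
    rintro v hv ⟨j, hj, rfl⟩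
    simp only [Finset.coe_Icc, mem_Icc] at hj
    simp only [mem_insert_iff, mem_singleton_iff] at hv
    rcases hv with hv | hv
    · exact tI_ne_bI hn hn0 (by omega) (by omega) (by omega) hv
    · exact tI_ne_bI hn hn0 (by omega) (by omega) (by omega) hv

include hL hn in
/-- the common neighbours of two deep valleys that are not neighbouring -/
lemma cn_low (hn0 : 0 < n) {x y : ℕ} (hx : x % 2 = 1) (hxL : x + 1 < L) (hw : w x ≠ 0)
    (hwL : x + w x ≤ L) (hy : y % 2 = 1) (hyL : y + 1 < L) (hwy : w y ≠ 0)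
    (hwyL : y + w y ≤ L) (hxy : x + 4 ≤ y) (h1 : x - w x ≤ y - w y) (h2 : x + w x ≤ y + w y) :
    cn (Gam n L w) (bI n hn0 x) (bI n hn0 y) = x + w x + 1 - (y - w y) := by
  have h3 : {v | (Gam n L w).Adj (bI n hn0 x) v ∧ (Gam n L w).Adj (bI n hn0 y) v} =
        tI n hn0 '' (Finset.Icc (y - w y) (x + w x) : Finset ℕ) := by
    ext v
    rw [mem_ofPred_eq, adj_low hL hn hn0 hx hxL hw (by omega),
      adj_low hL hn hn0 hy hyL hwy (by omega)]
    simp only [mem_image, Finset.coe_Icc, mem_Icc]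
    constructor
    · rintro ⟨h, h'⟩
      rcases h with h | h | ⟨j, a1, a2, a3, a4⟩ <;> rcases h' with h' | h' | ⟨j', b1, b2, b3, b4⟩
      · have := bI_inj hn hn0 (by omega) (by omega) (h.symm.trans h')
        omega
      · have := bI_inj hn hn0 (by omega) (by omega) (h.symm.trans h')
        omega
      · exact absurd (b4.symm.trans h) (tI_ne_bI hn hn0 (by omega) (by omega) (by omega))
      · have := bI_inj hn hn0 (by omega) (by omega) (h.symm.trans h')
        omega
      · have := bI_inj hn hn0 (by omega) (by omega) (h.symm.trans h')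
        omega
      · exact absurd (b4.symm.trans h) (tI_ne_bI hn hn0 (by omega) (by omega) (by omega))
      · exact absurd (a4.symm.trans h') (tI_ne_bI hn hn0 (by omega) (by omega) (by omega))
      · exact absurd (a4.symm.trans h') (tI_ne_bI hn hn0 (by omega) (by omega) (by omega))
      · have := tI_inj hn hn0 (by omega) (by omega) (a4.symm.trans b4)
        subst this
        exact ⟨j, ⟨by omega, by omega⟩, a4.symm⟩
    · rintro ⟨j, ⟨c1, c2⟩, rfl⟩
      exact ⟨Or.inr (Or.inr ⟨j, by omega, by omega, by omega, rfl⟩),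
        Or.inr (Or.inr ⟨j, by omega, by omega, by omega, rfl⟩)⟩
  unfold cn
  rw [h3, InjOn.ncard_image, ncard_coe_finset, Nat.card_Icc]
  intro a ha b hb h
  simp only [Finset.coe_Icc, mem_Icc] at ha hb
  exact tI_inj hn hn0 (by omega) (by omega) h

/-- the parameters: the valley at `1` is the reference valley, the valley at `4 k + 1 + 2 i` has
the parameter `2 k + f i` for `i < k`, all other valleys are shallow -/
def wf (k : ℕ) (f : ℕ → ℕ) (x : ℕ) : ℕ :=
  if x = 1 then 4 * k
  else if 4 * k + 1 ≤ x ∧ x < 6 * k + 1 then 2 * k + f ((x - (4 * k + 1)) / 2) else 0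

lemma wf_one (k : ℕ) (f : ℕ → ℕ) : wf k f 1 = 4 * k := by
  unfold wf; rw [if_pos rfl]

lemma wf_mid {k : ℕ} (f : ℕ → ℕ) {i : ℕ} (hi : i < k) :
    wf k f (4 * k + 1 + 2 * i) = 2 * k + f i := by
  unfold wf
  rw [if_neg (by omega), if_pos (by omega)]
  have : (4 * k + 1 + 2 * i - (4 * k + 1)) / 2 = i := by omega
  rw [this]

variable {k : ℕ} (hk : 1 ≤ k) (hkL : 9 * k + 1 ≤ L)

include hk hkL hn in
lemma dg_one (hn0 : 0 < n) (f : ℕ → ℕ) :
    dg (Gam n L (wf k f)) (bI n hn0 1) = 4 * k + 4 := by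
  have h := wf_one k f
  rw [dg_low (by omega) hn hn0 (by norm_num) (by omega) (by omega) (by omega), h]
  omega

include hk hkL hn in
lemma dg_mid (hn0 : 0 < n) (f : ℕ → ℕ) (hf : ∀ i, i < k → f i < k) {i : ℕ} (hi : i < k) :
    dg (Gam n L (wf k f)) (bI n hn0 (4 * k + 1 + 2 * i)) = 4 * k + 2 * f i + 3 := by
  have h := wf_mid f hi
  have h1 := hf i hi
  rw [dg_low (by omega) hn hn0 (by omega) (by omega) (by omega) (by omega), h]
  omega

include hk hkL hn in
lemma cn_mid (hn0 : 0 < n) (f : ℕ → ℕ) (hf : ∀ i, i < k → f i < k) {i : ℕ} (hi : i < k) :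
    cn (Gam n L (wf k f)) (bI n hn0 1) (bI n hn0 (4 * k + 1 + 2 * i)) + 2 * i =
      2 * k + 1 + f i := by
  have h0 := wf_one k f
  have h := wf_mid f hi
  have h1 := hf i hi
  rw [cn_low (by omega) hn hn0 (by norm_num) (by omega) (by omega) (by omega) (by omega)
    (by omega) (by omega) (by omega) (by omega) (by omega) (by omega), h, h0]
  omega

include hk hkL hn in
/-- all other vertices have a large degree -/
lemma classify (hn0 : 0 < n) (f : ℕ → ℕ) (u : Fin n) (hu : dg (Gam n L (wf k f)) u < L) :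
    u = bI n hn0 1 ∨ ∃ i, i < k ∧ u = bI n hn0 (4 * k + 1 + 2 * i) := by
  rcases index_cases (by omega : 2 ≤ L) hn hn0 u with ⟨x, hx, rfl⟩ | ⟨x, hx, hx', rfl⟩
  · have := dg_top (w := wf k f) (by omega : 2 ≤ L) hn hn0 hx
    omega
  · by_cases h : x % 2 = 0 ∨ wf k f x = 0
    · have := dg_big (w := wf k f) (by omega : 2 ≤ L) hn hn0 hx hx' h
      omega
    · push Not at h
      obtain ⟨h1, h2⟩ := h
      unfold wf at h2
      by_cases h3 : x = 1
      · left; rw [h3]
      · rw [if_neg h3] at h2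
        by_cases h4 : 4 * k + 1 ≤ x ∧ x < 6 * k + 1
        · right
          refine ⟨(x - (4 * k + 1)) / 2, by omega, ?_⟩
          congr 1
          omega
        · rw [if_neg h4] at h2
          exact absurd rfl h2

include hk hkL hn in
/-- **The isomorphism class determines the parameters.** -/
theorem params_eq (f g : ℕ → ℕ) (hf : ∀ i, i < k → f i < k) (hg : ∀ i, i < k → g i < k)
    (e : Gam n L (wf k f) ≃g Gam n L (wf k g)) : ∀ i, i < k → f i = g i := by
  have hn0 : 0 < n := by omega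
  -- the reference valley is fixed
  have h1 : e (bI n hn0 1) = bI n hn0 1 := by
    have hd := dg_iso e (bI n hn0 1)
    rw [dg_one hn hk hkL hn0 f] at hd
    rcases classify hn hk hkL hn0 g (e (bI n hn0 1)) (by rw [hd]; omega) with h | ⟨i, hi, h⟩
    · exact h
    · rw [h, dg_mid hn hk hkL hn0 g hg hi] at hd
      omega
  intro i hi
  have hfi := hf i hi
  have hd := dg_iso e (bI n hn0 (4 * k + 1 + 2 * i))
  rw [dg_mid hn hk hkL hn0 f hf hi] at hd
  rcases classify hn hk hkL hn0 g (e (bI n hn0 (4 * k + 1 + 2 * i))) (by rw [hd]; omega) with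
    h | ⟨j, hj, h⟩
  · rw [h, dg_one hn hk hkL hn0 g] at hd
    omega
  · rw [h, dg_mid hn hk hkL hn0 g hg hj] at hd
    have hc := cn_iso e (bI n hn0 1) (bI n hn0 (4 * k + 1 + 2 * i))
    rw [h, h1] at hc
    have c1 := cn_mid hn hk hkL hn0 f hf hi
    have c2 := cn_mid hn hk hkL hn0 g hg hj
    have hij : i = j := by omega
    subst hij
    omega

end

end Pool.Agent.R922.Vis
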